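import Mathlib

/-!
# MP_8cfbc5_co: threshold for large subsets avoiding bad triangles in Hilbert space

`P(δ)` fails for every `0 < δ < 1` and holds for `δ = 1`; so `δ* = 1` and the supremum is not
attained.
-/

namespace Pool.Agent.Results.MP_8cfbc5_co.ThresholdOne

open Finset

/-- The Hilbert space `ℓ²`. -/
abbrev H : Type := lp (fun _ : ℕ => ℝ) 2

/-- Two of the three distances are at most `1`, the remaining one is at least `1 + δ`. -/
def Bad (δ : ℝ) (a b c : H) : Prop :=
  (dist a b ≤ 1 ∧ dist b c ≤ 1 ∧ 1 + δ ≤ dist a c) ∨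
  (dist a b ≤ 1 ∧ dist a c ≤ 1 ∧ 1 + δ ≤ dist b c) ∨
  (dist a c ≤ 1 ∧ dist b c ≤ 1 ∧ 1 + δ ≤ dist a b)

/-- Property `P(δ)`. -/
def P (δ : ℝ) : Prop :=
  ∃ lam : ℝ, 0 < lam ∧ ∀ n : ℕ, 1 ≤ n → ∀ x : Fin n → H,
    ∃ I : Finset (Fin n), lam * n ≤ I.card ∧
      ∀ i ∈ I, ∀ j ∈ I, ∀ k ∈ I, i ≠ j → j ≠ k → i ≠ k → ¬ Bad δ (x i) (x j) (x k)

/-! ### `P(1)` holds -/

/-- If `y` is at distance `≤ 1` from `x` and `z` and `dist x z ≥ 2`, then
`‖x‖² + ‖z‖² = 2‖y‖² + 2`. -/
lemma degenerate (x y z : H) (h1 : dist x y ≤ 1) (h2 : dist y z ≤ 1) (h3 : 2 ≤ dist x z) :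
    ‖x‖ ^ 2 + ‖z‖ ^ 2 = 2 * ‖y‖ ^ 2 + 2 := by
  rw [dist_eq_norm] at h1 h2 h3
  set a := x - y with ha
  set b := y - z with hb
  have hab : x - z = a + b := by rw [ha, hb]; abel
  have hpar := parallelogram_law_with_norm ℝ a b
  have h4 : ‖a + b‖ ≤ ‖a‖ + ‖b‖ := norm_add_le _ _
  rw [hab] at h3
  have na := norm_nonneg a
  have nb := norm_nonneg b
  have ha1 : ‖a‖ = 1 := by linarith
  have hb1 : ‖b‖ = 1 := by linarith
  have hs : ‖a + b‖ = 2 := by linarith
  have hd : ‖a - b‖ = 0 := by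
    rw [ha1, hb1, hs] at hpar
    nlinarith [norm_nonneg (a - b)]
  have hd' : a = b := sub_eq_zero.1 (norm_eq_zero.1 hd)
  have hx : x = y + a := by rw [ha]; abel
  have hz : z = y - a := by rw [hd', hb]; abel
  have hpar2 := parallelogram_law_with_norm ℝ y a
  rw [← hx, ← hz, ha1] at hpar2
  nlinarith

lemma color_ne (x y z : H) (h : ‖x‖ ^ 2 + ‖z‖ ^ 2 = 2 * ‖y‖ ^ 2 + 2)
    (h1 : ⌊‖x‖ ^ 2⌋ % 4 = ⌊‖y‖ ^ 2⌋ % 4) (h2 : ⌊‖z‖ ^ 2⌋ % 4 = ⌊‖y‖ ^ 2⌋ % 4) : False := by
  set A := ⌊‖x‖ ^ 2⌋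
  set B := ⌊‖y‖ ^ 2⌋
  set D := ⌊‖z‖ ^ 2⌋
  have a1 := Int.floor_le (‖x‖ ^ 2)
  have a2 := Int.lt_floor_add_one (‖x‖ ^ 2)
  have b1 := Int.floor_le (‖y‖ ^ 2)
  have b2 := Int.lt_floor_add_one (‖y‖ ^ 2)
  have d1 := Int.floor_le (‖z‖ ^ 2)
  have d2 := Int.lt_floor_add_one (‖z‖ ^ 2)
  have e1 : ((A + D - 2 * B : ℤ) : ℝ) < 4 := by push_cast; linarith
  have e2 : (0 : ℝ) < ((A + D - 2 * B : ℤ) : ℝ) := by push_cast; linarith
  have e3 : A + D - 2 * B < 4 := by exact_mod_cast e1
  have e4 : 0 < A + D - 2 * B := by exact_mod_cast e2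
  omega

lemma P_one : P 1 := by
  classical
  refine ⟨1 / 4, by norm_num, fun n hn x => ?_⟩
  let c : Fin n → ℤ := fun i => ⌊‖x i‖ ^ 2⌋ % 4
  have hc : ∀ i ∈ (univ : Finset (Fin n)), c i ∈ Finset.Ico (0 : ℤ) 4 := fun i _ =>
    Finset.mem_Ico.2 ⟨Int.emod_nonneg _ (by norm_num), Int.emod_lt_of_pos _ (by norm_num)⟩
  have hsum := Finset.card_eq_sum_card_fiberwise hc
  rw [Finset.card_univ, Fintype.card_fin] at hsum
  obtain ⟨q, hq, hq'⟩ : ∃ q ∈ Finset.Ico (0 : ℤ) 4, n ≤ 4 * (univ.filter fun i => c i = q).card := by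
    by_contra hcon
    push Not at hcon
    have h5 : ∑ q ∈ Finset.Ico (0 : ℤ) 4, 4 * (univ.filter fun i => c i = q).card <
        ∑ _q ∈ Finset.Ico (0 : ℤ) 4, n :=
      Finset.sum_lt_sum_of_nonempty (by simp) fun q hq => hcon q hq
    rw [← Finset.mul_sum, ← hsum] at h5
    simp at h5
  refine ⟨univ.filter fun i => c i = q, ?_, ?_⟩
  · have : (n : ℝ) ≤ 4 * ((univ.filter fun i => c i = q).card : ℝ) := by exact_mod_cast hq'
    linarith
  · intro i hi j hj k hk _ _ _ hbad
    rw [Finset.mem_filter] at hi hj hk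
    have hij : c i = c j := hi.2.trans hj.2.symm
    have hjk : c j = c k := hj.2.trans hk.2.symm
    have key : ∀ a b d : Fin n, c a = c b → c d = c b → dist (x a) (x b) ≤ 1 →
        dist (x b) (x d) ≤ 1 → 1 + 1 ≤ dist (x a) (x d) → False := fun a b d h1 h2 h3 h4 h5 =>
      color_ne _ _ _ (degenerate _ _ _ h3 h4 (by linarith)) h1 h2
    rcases hbad with ⟨h1, h2, h3⟩ | ⟨h1, h2, h3⟩ | ⟨h1, h2, h3⟩
    · exact key i j k hij hjk.symm h1 h2 h3
    · exact key j i k hij.symm (hij.trans hjk).symm (by rwa [dist_comm]) h2 h3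
    · exact key i k j (hij.trans hjk) hjk h1 (by rwa [dist_comm]) h3

/-! ### Concentration -/

section Concentration

variable {K : Type} [Fintype K] [Nonempty K]

/-- Mean of a function on words. -/
noncomputable def mean {ι : Type} [Fintype ι] (f : ι → ℝ) : ℝ := (∑ w, f w) / Fintype.card ι

lemma mean_prod {α β : Type} [Fintype α] [Fintype β] (f : α × β → ℝ) :
    mean f = mean fun a => mean fun b => f (a, b) := by
  unfold mean
  rw [Fintype.sum_prod_type, Fintype.card_prod, ← Finset.sum_div, div_div]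
  push_cast
  ring

lemma mean_le {ι : Type} [Fintype ι] [Nonempty ι] (f : ι → ℝ) (c : ℝ) (h : ∀ i, f i ≤ c) :
    mean f ≤ c := by
  unfold mean
  rw [div_le_iff₀ (by exact_mod_cast Fintype.card_pos)]
  calc ∑ w, f w ≤ ∑ _w : ι, c := Finset.sum_le_sum fun i _ => h i
    _ = c * Fintype.card ι := by simp [mul_comm]

lemma mean_add {ι : Type} [Fintype ι] (f g : ι → ℝ) : mean (fun i => f i + g i) = mean f + mean g := by
  unfold mean
  rw [Finset.sum_add_distrib, add_div]

lemma mean_sub {ι : Type} [Fintype ι] (f g : ι → ℝ) : mean (fun i => f i - g i) = mean f - mean g := by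
  unfold mean
  rw [Finset.sum_sub_distrib, sub_div]

lemma mean_mul {ι : Type} [Fintype ι] (f : ι → ℝ) (c : ℝ) : mean (fun i => f i * c) = mean f * c := by
  unfold mean
  rw [← Finset.sum_mul]; ring

lemma mean_const {ι : Type} [Fintype ι] [Nonempty ι] (c : ℝ) : mean (fun _ : ι => c) = c := by
  unfold mean
  rw [Finset.sum_const, Finset.card_univ, nsmul_eq_mul, mul_div_assoc, mul_comm,
    div_mul_cancel₀]
  exact_mod_cast Fintype.card_pos.ne'

/-- Variance as mean of squared deviations. -/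
lemma var_eq {ι : Type} [Fintype ι] [Nonempty ι] (f : ι → ℝ) :
    mean (fun i => (f i - mean f) ^ 2) = mean (fun i => f i ^ 2) - mean f ^ 2 := by
  have h1 : (fun i => (f i - mean f) ^ 2) = fun i => (f i ^ 2 + mean f ^ 2) - f i * (2 * mean f) := by
    funext i; ring
  rw [h1, mean_sub, mean_add, mean_mul, mean_const]
  ring

/-- Variance of a Lipschitz function on words of length `N` is at most `N`. -/
lemma var_le (N : ℕ) : ∀ f : (Fin N → K) → ℝ,
    (∀ w i a, |f (Function.update w i a) - f w| ≤ 1) →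
    mean (fun w => f w ^ 2) - mean f ^ 2 ≤ N := by
  induction N with
  | zero =>
    intro f _
    have h0 : ∀ w : Fin 0 → K, f w = f default := fun w => by rw [Subsingleton.elim w default]
    have h1 : (fun w => f w ^ 2) = fun _ : Fin 0 → K => f default ^ 2 := by
      funext w; rw [h0 w]
    have h2 : f = fun _ : Fin 0 → K => f default := by
      funext w; rw [h0 w]
    rw [h1, mean_const]
    nth_rewrite 2 [h2]
    rw [mean_const]
    simp
  | succ N ih =>
    intro f hf
    have hcons : ∀ g : (Fin (N + 1) → K) → ℝ,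
        mean g = mean fun a : K => mean fun w : Fin N → K => g (Fin.cons a w) := by
      intro g
      rw [← mean_prod (fun p : K × (Fin N → K) => g (Fin.cons p.1 p.2))]
      unfold mean
      have e := (Fin.consEquiv (fun _ : Fin (N + 1) => K)).sum_comp g
      rw [← e, ← Fintype.card_congr (Fin.consEquiv (fun _ : Fin (N + 1) => K))]
      rfl
    set m : K → ℝ := fun a => mean fun w : Fin N → K => f (Fin.cons a w) with hm
    have h1 : ∀ a, mean (fun w : Fin N → K => f (Fin.cons a w) ^ 2) - m a ^ 2 ≤ N := by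
      intro a
      refine ih (fun w => f (Fin.cons a w)) ?_
      intro w i b
      have := hf (Fin.cons a w) i.succ b
      rwa [← Fin.cons_update] at this
    have h2 : ∀ a b, |m a - m b| ≤ 1 := by
      intro a b
      rw [hm]
      simp only
      rw [← mean_sub]
      have hab : ∀ w : Fin N → K, |f (Fin.cons a w) - f (Fin.cons b w)| ≤ 1 := by
        intro w
        have := hf (Fin.cons b w) 0 a
        rwa [Fin.update_cons_zero] at this
      rw [abs_le]
      constructor
      · have := mean_le (fun w : Fin N → K => -(f (Fin.cons a w) - f (Fin.cons b w))) 1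
          (fun w => by have := (abs_le.1 (hab w)).1; linarith)
        have h3 : mean (fun w : Fin N → K => -(f (Fin.cons a w) - f (Fin.cons b w))) =
            -mean (fun w : Fin N → K => (f (Fin.cons a w) - f (Fin.cons b w))) := by
          unfold mean; rw [Finset.sum_neg_distrib, neg_div]
        linarith
      · exact mean_le _ 1 (fun w => (abs_le.1 (hab w)).2)
    have h3 : mean (fun a => m a ^ 2) - mean m ^ 2 ≤ 1 := by
      rw [← var_eq]
      refine mean_le _ 1 fun a => ?_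
      have : |m a - mean m| ≤ 1 := by
        have e1 : m a - mean m = mean fun b => m a - m b := by
          rw [mean_sub, mean_const]
        rw [e1, abs_le]
        constructor
        · have := mean_le (fun b => -(m a - m b)) 1
            (fun b => by have := (abs_le.1 (h2 a b)).1; linarith)
          have h3 : mean (fun b => -(m a - m b)) = -mean (fun b => m a - m b) := by
            unfold mean; rw [Finset.sum_neg_distrib, neg_div]
          linarith
        · exact mean_le _ 1 fun b => (abs_le.1 (h2 a b)).2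
      have h4 := abs_le.1 this
      nlinarith
    have h5 : mean (fun a => mean (fun w : Fin N → K => f (Fin.cons a w) ^ 2) - m a ^ 2) ≤ N :=
      mean_le _ _ h1
    rw [mean_sub] at h5
    rw [hcons f, hcons (fun w => f w ^ 2)]
    push_cast
    linarith

/-- Chebyshev's inequality. -/
lemma cheb (N : ℕ) (f : (Fin N → K) → ℝ)
    (hf : ∀ w i a, |f (Function.update w i a) - f w| ≤ 1) (c : ℝ) (hc : 0 ≤ c)
    (S : Finset (Fin N → K)) (hS : ∀ w ∈ S, c ≤ |f w - mean f|) :
    (S.card : ℝ) * c ^ 2 ≤ N * Fintype.card (Fin N → K) := by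
  have h1 := var_le N f hf
  rw [← var_eq] at h1
  unfold mean at h1
  rw [div_le_iff₀ (by exact_mod_cast Fintype.card_pos)] at h1
  refine le_trans ?_ h1
  calc (S.card : ℝ) * c ^ 2 = ∑ _w ∈ S, c ^ 2 := by simp
    _ ≤ ∑ w ∈ S, (f w - mean f) ^ 2 := Finset.sum_le_sum fun w hw => by
        rw [← sq_abs (f w - mean f)]
        exact pow_le_pow_left₀ hc (hS w hw) 2
    _ ≤ ∑ w, (f w - mean f) ^ 2 :=
        Finset.sum_le_sum_of_subset_of_nonneg (Finset.subset_univ _) fun _ _ _ => sq_nonneg _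

variable [DecidableEq K]

/-- Blow-up: if `A` has density at least `lam` then all but a proportion `lam / 4` of the words
are at Hamming distance less than `ε N` from `A`, provided `ε² N > 9 / lam`. -/
lemma blowup (N : ℕ) (hN : 1 ≤ N) (lam ε : ℝ) (hlam : 0 < lam) (hε : 0 < ε)
    (hlarge : 9 < lam * ε ^ 2 * N)
    (A : Finset (Fin N → K)) (hA : lam * Fintype.card (Fin N → K) ≤ A.card) :
    (((univ : Finset (Fin N → K)).filter fun w =>
      ∀ z ∈ A, ε * N ≤ hammingDist w z).card : ℝ) < lam / 4 * Fintype.card (Fin N → K) := by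
  classical
  have hcard : (0 : ℝ) < Fintype.card (Fin N → K) := by exact_mod_cast Fintype.card_pos
  have hAne : A.Nonempty := by
    rw [Finset.nonempty_iff_ne_empty]
    rintro rfl
    simp only [Finset.card_empty, Nat.cast_zero] at hA
    have := mul_pos hlam hcard
    linarith
  set f : (Fin N → K) → ℝ := fun w => ((A.inf' hAne fun z => hammingDist w z : ℕ) : ℝ) with hf
  have hfle : ∀ w z, z ∈ A → f w ≤ hammingDist w z := by
    intro w z hz
    show ((A.inf' hAne fun z => hammingDist w z : ℕ) : ℝ) ≤ _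
    exact_mod_cast Finset.inf'_le (fun z => hammingDist w z) hz
  have hfex : ∀ w, ∃ z ∈ A, f w = hammingDist w z := by
    intro w
    obtain ⟨z, hz, h⟩ := Finset.exists_mem_eq_inf' hAne fun z => hammingDist w z
    refine ⟨z, hz, ?_⟩
    show ((A.inf' hAne fun z => hammingDist w z : ℕ) : ℝ) = _
    exact_mod_cast h
  have hupd : ∀ (w : Fin N → K) i a, hammingDist (Function.update w i a) w ≤ 1 := by
    intro w i a
    unfold hammingDist
    refine (Finset.card_le_card (t := {i}) ?_).trans (by simp)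
    intro j hj
    rw [Finset.mem_filter] at hj
    rw [Finset.mem_singleton]
    by_contra hne
    exact hj.2 (Function.update_of_ne hne _ _)
  have hlip : ∀ w i a, |f (Function.update w i a) - f w| ≤ 1 := by
    intro w i a
    have h0 : (hammingDist (Function.update w i a) w : ℝ) ≤ 1 := by exact_mod_cast hupd w i a
    rw [abs_le]
    constructor
    · obtain ⟨z, hz, h⟩ := hfex (Function.update w i a)
      have h1 := hfle w z hz
      have h2 : (hammingDist w z : ℝ) ≤ hammingDist w (Function.update w i a) +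
          hammingDist (Function.update w i a) z := by
        exact_mod_cast hammingDist_triangle w (Function.update w i a) z
      rw [hammingDist_comm w (Function.update w i a)] at h2
      linarith
    · obtain ⟨z, hz, h⟩ := hfex w
      have h1 := hfle (Function.update w i a) z hz
      have h2 : (hammingDist (Function.update w i a) z : ℝ) ≤
          hammingDist (Function.update w i a) w + hammingDist w z := by
        exact_mod_cast hammingDist_triangle _ w z
      linarith
  set M := mean f with hM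
  have hf0 : ∀ w, 0 ≤ f w := fun w => by rw [hf]; positivity
  have hM0 : 0 ≤ M := by
    rw [hM]; unfold mean; exact div_nonneg (Finset.sum_nonneg fun w _ => hf0 w) (by positivity)
  have hNr : (1 : ℝ) ≤ N := by exact_mod_cast hN
  -- bound on the mean
  have h1 := cheb N f hlip M hM0 A (fun w hw => by
    have : f w = 0 := le_antisymm (by simpa using hfle w w hw) (hf0 w)
    rw [this, ← hM, zero_sub, abs_neg, abs_of_nonneg hM0])
  have h2 : lam * M ^ 2 ≤ N := by
    have h3 : lam * Fintype.card (Fin N → K) * M ^ 2 ≤ N * Fintype.card (Fin N → K) :=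
      le_trans (mul_le_mul_of_nonneg_right hA (sq_nonneg _)) h1
    have h4 : (lam * M ^ 2) * Fintype.card (Fin N → K) ≤ N * Fintype.card (Fin N → K) := by
      linarith
    exact le_of_mul_le_mul_right h4 hcard
  -- `M < ε N / 3`
  have h3 : 3 * M < ε * N := by
    by_contra hcon
    push Not at hcon
    have h4 : (ε * N) ^ 2 ≤ 9 * M ^ 2 := by nlinarith [mul_pos hε (by linarith : (0:ℝ) < N)]
    have h5 : lam * (ε * N) ^ 2 ≤ 9 * N := by nlinarith
    have h6 : 9 * N < lam * (ε * N) ^ 2 := by nlinarith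
    linarith
  set c := ε * N - M with hc
  have hc0 : 0 < c := by rw [hc]; nlinarith [mul_pos hε (by linarith : (0:ℝ) < N)]
  set B := (univ : Finset (Fin N → K)).filter fun w => ∀ z ∈ A, ε * N ≤ hammingDist w z with hB
  have h7 := cheb N f hlip c hc0.le B (fun w hw => by
    rw [hB, Finset.mem_filter] at hw
    obtain ⟨z, hz, h⟩ := hfex w
    have h8 := hw.2 z hz
    rw [← h] at h8
    rw [← hM]
    exact le_trans (by rw [hc]; linarith) (le_abs_self _))
  -- `c² > 4 N / lam`
  have h9 : 4 * N < lam * c ^ 2 := by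
    have h10 : 2 / 3 * (ε * N) < c := by rw [hc]; linarith
    have h11 : (2 / 3 * (ε * N)) ^ 2 < c ^ 2 := by
      have : 0 < ε * N := mul_pos hε (by linarith)
      nlinarith
    have h12 : lam * (2 / 3 * (ε * N)) ^ 2 < lam * c ^ 2 := mul_lt_mul_of_pos_left h11 hlam
    have h13 : 4 * (N : ℝ) < lam * (2 / 3 * (ε * N)) ^ 2 := by nlinarith
    linarith
  have h14 : (B.card : ℝ) * (lam * c ^ 2) ≤ lam * (N * Fintype.card (Fin N → K)) := by
    nlinarith
  rcases Nat.eq_zero_or_pos B.card with hB0 | hBpos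
  · rw [hB0]; simp only [Nat.cast_zero]; positivity
  · have hBpos' : (0 : ℝ) < B.card := by exact_mod_cast hBpos
    have h15 : (B.card : ℝ) * (4 * N) < lam * (N * Fintype.card (Fin N → K)) :=
      lt_of_lt_of_le (mul_lt_mul_of_pos_left h9 hBpos') h14
    have hN0 : (0 : ℝ) < N := by linarith
    have h16 : ((B.card : ℝ) * 4) * N < (lam * Fintype.card (Fin N → K)) * N := by linarith
    have h17 := lt_of_mul_lt_mul_right h16 hN0.le
    linarith

end Concentration

/-! ### Embedding and the construction -/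

/-- Every finite-dimensional real inner product space embeds isometrically into `ℓ²`. -/
lemma exists_isometry (E : Type) [NormedAddCommGroup E] [InnerProductSpace ℝ E]
    [FiniteDimensional ℝ E] : ∃ φ : E → H, Isometry φ := by
  classical
  let b := stdOrthonormalBasis ℝ E
  let hb : HilbertBasis ℕ ℝ H := default
  let v : Fin (Module.finrank ℝ E) → H := fun i => hb (i : ℕ)
  have hv : Orthonormal ℝ v := hb.orthonormal.comp _ Fin.val_injective
  let L : E →ₗ[ℝ] H := b.toBasis.constr ℝ v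
  have hL : L ∘ b.toBasis = v := by
    funext i
    simp [L]
  have hbo : Orthonormal ℝ b.toBasis := by
    rw [OrthonormalBasis.coe_toBasis]
    exact b.orthonormal
  let Li := LinearMap.isometryOfOrthonormal L hbo (by rw [hL]; exact hv)
  exact ⟨Li, Li.isometry⟩

/-- The words mapped to a product of circles. -/
noncomputable def pt {k N : ℕ} [NeZero k] (w : Fin N → ZMod k) : EuclideanSpace ℂ (Fin N) :=
  WithLp.toLp 2 fun i => ((ZMod.toCircle (w i) : Circle) : ℂ)

lemma dist_circ_le {k : ℕ} [NeZero k] (a b : ZMod k) :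
    dist ((ZMod.toCircle a : Circle) : ℂ) ((ZMod.toCircle b : Circle) : ℂ) ≤ 2 := by
  rw [dist_eq_norm]
  calc _ ≤ ‖((ZMod.toCircle a : Circle) : ℂ)‖ + ‖((ZMod.toCircle b : Circle) : ℂ)‖ := norm_sub_le _ _
    _ = 2 := by rw [Circle.norm_coe, Circle.norm_coe]; norm_num

lemma dist_pt_le {k N : ℕ} [NeZero k] (w z : Fin N → ZMod k) (s : ℝ) (hs : 0 ≤ s)
    (h : (hammingDist w z : ℝ) ≤ s ^ 2 * N) : dist (pt w) (pt z) ≤ 2 * s * √N := by
  rw [EuclideanSpace.dist_eq]
  have h1 : ∑ i, dist ((pt w).ofLp i) ((pt z).ofLp i) ^ 2 ≤ (2 * s * √N) ^ 2 := by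
    have h2 : ∀ i, dist ((pt w).ofLp i) ((pt z).ofLp i) ^ 2 ≤ if w i ≠ z i then (4 : ℝ) else 0 := by
      intro i
      show dist ((ZMod.toCircle (w i) : Circle) : ℂ) ((ZMod.toCircle (z i) : Circle) : ℂ) ^ 2 ≤ _
      by_cases hwz : w i = z i
      · rw [hwz, dist_self]; simp
      · rw [if_pos hwz]
        have := dist_circ_le (w i) (z i)
        have h0 := dist_nonneg (x := ((ZMod.toCircle (w i) : Circle) : ℂ))
          (y := ((ZMod.toCircle (z i) : Circle) : ℂ))
        nlinarith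
    calc ∑ i, dist ((pt w).ofLp i) ((pt z).ofLp i) ^ 2 ≤ ∑ i, if w i ≠ z i then (4 : ℝ) else 0 :=
          Finset.sum_le_sum fun i _ => h2 i
      _ = 4 * hammingDist w z := by
          rw [Finset.sum_ite, Finset.sum_const, Finset.sum_const_zero, add_zero, nsmul_eq_mul,
            mul_comm]
          rfl
      _ ≤ (2 * s * √N) ^ 2 := by
          rw [mul_pow, Real.sq_sqrt (Nat.cast_nonneg N)]
          nlinarith
  calc √(∑ i, dist ((pt w).ofLp i) ((pt z).ofLp i) ^ 2) ≤ √((2 * s * √N) ^ 2) := Real.sqrt_le_sqrt h1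
    _ = 2 * s * √N := Real.sqrt_sq (by positivity)

lemma dist_pt_const {k N : ℕ} [NeZero k] (w z : Fin N → ZMod k) (c : ℝ) (hc : 0 ≤ c)
    (h : ∀ i, dist ((ZMod.toCircle (w i) : Circle) : ℂ) ((ZMod.toCircle (z i) : Circle) : ℂ) = c) :
    dist (pt w) (pt z) = c * √N := by
  rw [EuclideanSpace.dist_eq]
  have h1 : ∑ i, dist ((pt w).ofLp i) ((pt z).ofLp i) ^ 2 = (c * √N) ^ 2 := by
    have h2 : ∀ i, dist ((pt w).ofLp i) ((pt z).ofLp i) ^ 2 = c ^ 2 := fun i => by
      rw [← h i]; rfl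
    rw [Finset.sum_congr rfl fun i _ => h2 i, Finset.sum_const, Finset.card_univ, Fintype.card_fin,
      nsmul_eq_mul, mul_pow, Real.sq_sqrt (Nat.cast_nonneg N)]
    ring
  rw [h1, Real.sqrt_sq (by positivity)]

lemma exists_k (δ : ℝ) (hδ : δ < 1) : ∃ k : ℕ, 2 ≤ k ∧ ∀ _ : NeZero k,
    1 + δ < ‖((ZMod.toCircle (1 : ZMod k) : Circle) : ℂ) + 1‖ := by
  have h1 : Filter.Tendsto (fun k : ℕ => ‖Complex.exp (2 * Real.pi * Complex.I * (1 / (k : ℂ))) + 1‖)
      Filter.atTop (nhds ‖Complex.exp (2 * Real.pi * Complex.I * 0) + 1‖) := by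
    refine Filter.Tendsto.norm (Filter.Tendsto.add_const _ ?_)
    refine (Complex.continuous_exp.tendsto _).comp ?_
    exact Filter.Tendsto.const_mul _ tendsto_one_div_atTop_nhds_zero_nat
  have h2 : ‖Complex.exp (2 * Real.pi * Complex.I * 0) + 1‖ = 2 := by
    rw [mul_zero, Complex.exp_zero]; norm_num
  rw [h2] at h1
  have h3 := h1.eventually (lt_mem_nhds (show 1 + δ < 2 by linarith))
  obtain ⟨k, hk, hk2⟩ := (h3.and (Filter.eventually_ge_atTop 2)).exists
  refine ⟨k, hk2, fun _ => ?_⟩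
  have h4 := ZMod.toCircle_intCast (N := k) 1
  rw [Int.cast_one] at h4
  rw [h4]
  have h5 : 2 * (Real.pi : ℂ) * Complex.I * ((1 : ℤ) : ℂ) / (k : ℂ) =
      2 * Real.pi * Complex.I * (1 / (k : ℂ)) := by
    push_cast; ring
  rw [h5]
  exact hk

lemma not_P (δ : ℝ) (hδ0 : 0 < δ) (hδ : δ < 1) : ¬ P δ := by
  classical
  rintro ⟨lam, hlam, hP⟩
  obtain ⟨k, hk2, hk⟩ := exists_k δ hδ
  have : NeZero k := ⟨by omega⟩
  have hk' := hk inferInstance
  set u1 : ℂ := ((ZMod.toCircle (1 : ZMod k) : Circle) : ℂ) with hu1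
  set a : ℝ := ‖u1 - 1‖ with ha
  have ha0 : 0 < a := by
    rw [ha, norm_pos_iff, sub_ne_zero, hu1]
    intro h
    have h1 : ZMod.toCircle (1 : ZMod k) = 1 := by
      apply Subtype.ext
      exact h
    have h2 : ZMod.toCircle (1 : ZMod k) = ZMod.toCircle (0 : ZMod k) := by
      rw [h1, AddChar.map_zero_eq_one]
    have h3 := ZMod.injective_toCircle h2
    have : Fact (1 < k) := ⟨by omega⟩
    exact one_ne_zero h3
  set b : ℝ := a * ‖u1 + 1‖ with hb
  have hab : (1 + δ) * a < b := by rw [hb]; nlinarith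
  set s : ℝ := (b - (1 + δ) * a) / (4 + 2 * (1 + δ)) with hs
  have hs0 : 0 < s := div_pos (by linarith) (by linarith)
  have hs1 : s * (4 + 2 * (1 + δ)) = b - (1 + δ) * a := by
    rw [hs]; field_simp
  -- distances along the shift
  have step : ∀ j : ZMod k, dist ((ZMod.toCircle j : Circle) : ℂ)
      ((ZMod.toCircle (j + 1) : Circle) : ℂ) = a := by
    intro j
    rw [AddChar.map_add_eq_mul, Circle.coe_mul, dist_comm, dist_eq_norm, ha]
    rw [show ((ZMod.toCircle j : Circle) : ℂ) * u1 - ((ZMod.toCircle j : Circle) : ℂ) =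
      ((ZMod.toCircle j : Circle) : ℂ) * (u1 - 1) by ring, norm_mul, Circle.norm_coe, one_mul]
  have step2 : ∀ j : ZMod k, dist ((ZMod.toCircle (j + 1) : Circle) : ℂ)
      ((ZMod.toCircle (j - 1) : Circle) : ℂ) = b := by
    intro j
    have e : j + 1 = (j - 1) + 1 + 1 := by ring
    rw [e, AddChar.map_add_eq_mul, AddChar.map_add_eq_mul, Circle.coe_mul, Circle.coe_mul,
      dist_eq_norm, hb, ha]
    rw [show ((ZMod.toCircle (j - 1) : Circle) : ℂ) * u1 * u1 - ((ZMod.toCircle (j - 1) : Circle) : ℂ) =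
      ((ZMod.toCircle (j - 1) : Circle) : ℂ) * ((u1 - 1) * (u1 + 1)) by ring, norm_mul,
      Circle.norm_coe, one_mul, norm_mul]
  -- choose the dimension
  obtain ⟨N, hN⟩ := exists_nat_gt (9 / (lam * (s ^ 2) ^ 2) + 1)
  have hlam2 : 0 < lam * (s ^ 2) ^ 2 := by positivity
  have hq0 : 0 < 9 / (lam * (s ^ 2) ^ 2) := by positivity
  have hN1r : (1 : ℝ) < N := by linarith
  have hN1 : 1 ≤ N := by
    have : 1 < N := by exact_mod_cast hN1r
    omega
  have hlarge : 9 < lam * (s ^ 2) ^ 2 * N := by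
    have h1 : 9 / (lam * (s ^ 2) ^ 2) < N := by linarith
    rw [div_lt_iff₀ hlam2] at h1
    linarith
  set W := Fin N → ZMod k
  have hsN : 0 < √(N : ℝ) := Real.sqrt_pos.2 (by linarith)
  set r : ℝ := √N * (a + 2 * s) with hr
  have hr0 : 0 < r := mul_pos hsN (by linarith)
  obtain ⟨φ, hφ⟩ := exists_isometry (EuclideanSpace ℂ (Fin N))
  let e : Fin (Fintype.card W) ≃ W := (Fintype.equivFin W).symm
  let x : Fin (Fintype.card W) → H := fun i => φ ((r⁻¹ : ℝ) • pt (e i))
  have hx : ∀ i j, dist (x i) (x j) = r⁻¹ * dist (pt (e i)) (pt (e j)) := by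
    intro i j
    show dist (φ _) (φ _) = _
    rw [hφ.dist_eq, dist_smul₀, Real.norm_eq_abs, abs_of_pos (inv_pos.2 hr0)]
  obtain ⟨I, hI, hgood⟩ := hP (Fintype.card W) Fintype.card_pos x
  let A : Finset W := I.map e.toEmbedding
  have hA : lam * Fintype.card W ≤ A.card := by rw [Finset.card_map]; exact hI
  have hbl := blowup N hN1 lam (s ^ 2) hlam (by positivity) hlarge A hA
  set B := (univ : Finset W).filter fun w => ∀ z ∈ A, s ^ 2 * N ≤ hammingDist w z with hB
  -- find the centre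
  obtain ⟨y, hyA, hy1, hy2⟩ : ∃ y ∈ A, (fun i => y i + 1) ∉ B ∧ (fun i => y i - 1) ∉ B := by
    by_contra hcon
    push Not at hcon
    let B1 : Finset W := B.image fun w => fun i => w i - 1
    let B2 : Finset W := B.image fun w => fun i => w i + 1
    have hsub : A ⊆ B1 ∪ B2 := by
      intro y hy
      rw [Finset.mem_union]
      by_cases h1 : (fun i => y i + 1) ∈ B
      · left
        refine Finset.mem_image.2 ⟨_, h1, ?_⟩
        funext i; simp
      · right
        have h2 := hcon y hy h1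
        refine Finset.mem_image.2 ⟨_, h2, ?_⟩
        funext i; simp
    have h1 : A.card ≤ B.card + B.card :=
      (Finset.card_le_card hsub).trans ((Finset.card_union_le _ _).trans
        (Nat.add_le_add Finset.card_image_le Finset.card_image_le))
    have h2 : (A.card : ℝ) ≤ B.card + B.card := by exact_mod_cast h1
    have hcard : (0 : ℝ) < Fintype.card W := by exact_mod_cast Fintype.card_pos
    nlinarith [mul_pos hlam hcard]
  rw [hB, Finset.mem_filter, not_and] at hy1 hy2
  have hy1' := hy1 (Finset.mem_univ _)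
  have hy2' := hy2 (Finset.mem_univ _)
  push Not at hy1' hy2'
  obtain ⟨p, hpA, hp⟩ := hy1'
  obtain ⟨q, hqA, hq⟩ := hy2'
  have d1 : dist (pt y) (pt p) ≤ r := by
    have e1 := dist_pt_const y (fun i => y i + 1) a ha0.le fun i => step (y i)
    have e2 := dist_pt_le (fun i => y i + 1) p s hs0.le hp.le
    have e3 := dist_triangle (pt y) (pt fun i => y i + 1) (pt p)
    rw [hr]; linarith
  have d2 : dist (pt y) (pt q) ≤ r := by
    have e1 := dist_pt_const (fun i => y i - 1) y a ha0.le fun i => by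
      have := step (y i - 1); rwa [sub_add_cancel] at this
    have e2 := dist_pt_le (fun i => y i - 1) q s hs0.le hq.le
    have e3 := dist_triangle (pt y) (pt fun i => y i - 1) (pt q)
    rw [dist_comm (pt y) (pt fun i => y i - 1)] at e3
    rw [hr]; linarith
  have hb0 : 0 ≤ b := by rw [hb]; positivity
  have d3 : (1 + δ) * r ≤ dist (pt p) (pt q) := by
    have e1 := dist_pt_const (fun i => y i + 1) (fun i => y i - 1) b hb0 fun i => step2 (y i)
    have e2 := dist_pt_le (fun i => y i + 1) p s hs0.le hp.le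
    have e3 := dist_pt_le (fun i => y i - 1) q s hs0.le hq.le
    have e4 := dist_triangle4 (pt fun i => y i + 1) (pt p) (pt q) (pt fun i => y i - 1)
    rw [dist_comm (pt q)] at e4
    have e5 : (b - 4 * s) * √N ≤ dist (pt p) (pt q) := by linarith
    have e6 : (1 + δ) * r = (b - 4 * s) * √N := by
      rw [hr]
      have : (1 + δ) * (a + 2 * s) = b - 4 * s := by linarith
      rw [← this]; ring
    linarith
  obtain ⟨i, hi, hi'⟩ := Finset.mem_map.1 hpA
  obtain ⟨j, hj, hj'⟩ := Finset.mem_map.1 hyA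
  obtain ⟨l, hl, hl'⟩ := Finset.mem_map.1 hqA
  have hi'' : e i = p := hi'
  have hj'' : e j = y := hj'
  have hl'' : e l = q := hl'
  have D1 : dist (x i) (x j) ≤ 1 := by
    rw [hx, hi'', hj'', dist_comm, inv_mul_le_iff₀ hr0, mul_one]; exact d1
  have D2 : dist (x j) (x l) ≤ 1 := by
    rw [hx, hl'', hj'', inv_mul_le_iff₀ hr0, mul_one]; exact d2
  have D3 : 1 + δ ≤ dist (x i) (x l) := by
    rw [hx, hi'', hl'', le_inv_mul_iff₀ hr0]; linarith
  have n1 : i ≠ j := by rintro rfl; linarith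
  have n2 : j ≠ l := by rintro rfl; linarith
  have n3 : i ≠ l := by rintro rfl; rw [dist_self] at D3; linarith
  exact hgood i hi j hj l hl n1 n2 n3 (Or.inl ⟨D1, D2, D3⟩)

lemma P_mono {δ δ' : ℝ} (h : δ ≤ δ') (hP : P δ) : P δ' := by
  obtain ⟨lam, hlam, hP⟩ := hP
  refine ⟨lam, hlam, fun n hn x => ?_⟩
  obtain ⟨I, hI, hg⟩ := hP n hn x
  refine ⟨I, hI, fun i hi j hj k hk h1 h2 h3 hb => hg i hi j hj k hk h1 h2 h3 ?_⟩
  rcases hb with ⟨a, b, c⟩ | ⟨a, b, c⟩ | ⟨a, b, c⟩
  · exact Or.inl ⟨a, b, by linarith⟩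
  · exact Or.inr (Or.inl ⟨a, b, by linarith⟩)
  · exact Or.inr (Or.inr ⟨a, b, by linarith⟩)

/-- For `δ > 0`, property `P(δ)` fails exactly when `δ < 1`; hence `δ* = 1` and `P(δ*)` holds, so
the supremum is not attained. -/
theorem result :
    (∀ δ : ℝ, 0 < δ → (¬ P δ ↔ δ < 1)) ∧
    sSup {δ : ℝ | 0 < δ ∧ ¬ P δ} = 1 ∧
    P (sSup {δ : ℝ | 0 < δ ∧ ¬ P δ}) := by
  have h1 : ∀ δ : ℝ, 0 < δ → (¬ P δ ↔ δ < 1) := fun δ hδ =>
    ⟨fun h => by by_contra hcon; exact h (P_mono (not_lt.1 hcon) P_one), fun h => not_P δ hδ h⟩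
  have h2 : {δ : ℝ | 0 < δ ∧ ¬ P δ} = Set.Ioo 0 1 := by
    ext δ
    constructor
    · rintro ⟨h, h'⟩
      exact ⟨h, (h1 δ h).1 h'⟩
    · rintro ⟨h, h'⟩
      exact ⟨h, (h1 δ h).2 h'⟩
  have h3 : sSup {δ : ℝ | 0 < δ ∧ ¬ P δ} = 1 := by rw [h2, csSup_Ioo (by norm_num)]
  exact ⟨h1, h3, by rw [h3]; exact P_one⟩

end Pool.Agent.Results.MP_8cfbc5_co.ThresholdOne
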